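import Pool.Agent.R498.MT.QGen

set_option autoImplicit false

/-!
# Clusters of almost prime values of quadratic polynomials in narrow progressions
-/

namespace Pool.Agent.Results.MP_a17b09_nt.Clusters

open Filter

/-- The triples of Conjecture F: `a > 0`, `gcd (a, b, c) = 1`, `a + b` and `c` are not both even, and the
discriminant is not a perfect square. -/
def Admissible (a b c : ℤ) : Prop :=
  0 < a ∧ (∀ p : ℕ, p.Prime → (p : ℤ) ∣ a → (p : ℤ) ∣ b → ¬ (p : ℤ) ∣ c) ∧
    ¬ (Even (a + b) ∧ Even c) ∧ ¬ IsSquare (b ^ 2 - 4 * a * c)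

/-- `a x ^ 2 + b x + c` is up to the sign a product of at most three primes, counted with multiplicity,
and all of them are at least `w`. -/
def AlmostPrimeValue (a b c : ℤ) (w : ℝ) (x : ℕ) : Prop :=
  a * (x : ℤ) ^ 2 + b * x + c ≠ 0 ∧
    (a * (x : ℤ) ^ 2 + b * x + c).natAbs.primeFactorsList.length ≤ 3 ∧
    ∀ p : ℕ, p.Prime → (p : ℤ) ∣ a * (x : ℤ) ^ 2 + b * x + c → w ≤ p

theorem no_fixed (a b c : ℤ) (h : Admissible a b c) (p : ℕ) (hp : p.Prime) :
    ∃ n : ℤ, ¬ (p : ℤ) ∣ a * n ^ 2 + b * n + c := by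
  obtain ⟨-, hg, h2, -⟩ := h
  by_contra hcon
  push Not at hcon
  have h0 := hcon 0
  have h1 := hcon 1
  have h3 := hcon (-1)
  have hc : (p : ℤ) ∣ c := by
    have e : a * 0 ^ 2 + b * 0 + c = c := by ring
    rwa [e] at h0
  have hab : (p : ℤ) ∣ a + b := by
    have := dvd_sub h1 hc
    have e : a * 1 ^ 2 + b * 1 + c - c = a + b := by ring
    rwa [e] at this
  by_cases hp2 : p = 2
  · subst hp2
    exact h2 ⟨even_iff_two_dvd.2 (by exact_mod_cast hab), even_iff_two_dvd.2 (by exact_mod_cast hc)⟩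
  have h4 : (p : ℤ) ∣ 2 * a := by
    have h5 := dvd_sub h3 hc
    have h6 := dvd_add hab h5
    have e : a + b + (a * (-1) ^ 2 + b * (-1) + c - c) = 2 * a := by ring
    rwa [e] at h6
  have hpZ : Prime (p : ℤ) := Nat.prime_iff_prime_int.1 hp
  rcases hpZ.dvd_or_dvd h4 with h5 | h5
  · have h6 : p ∣ 2 := by exact_mod_cast h5
    exact hp2 ((Nat.prime_dvd_prime_iff_eq hp Nat.prime_two).1 h6)
  · refine hg p hp h5 ?_ hc
    have h6 := dvd_sub hab h5
    have e : a + b - a = b := by ring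
    rwa [e] at h6

/-- **A theorem of Maynard-Tao type for quadratic polynomials.** Let `(a, b, c)` be an admissible triple.
For every `m` there is `K` such that, for every finite set `S` of at least `K` nonnegative integers and
every `l`, there is an exponent `B` such that for all large `N` there are a subset `H` of `S` with `m`
elements and an arithmetic progression `n, n + d, ..., n + (l - 1) d` in `(N, N + N ^ (3 / 4)]` with
difference `1 ≤ d ≤ (log N) ^ B` such that for all its terms `x` and all `h ∈ H` the value of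
`a t ^ 2 + b t + c` at `t = x + h` has at most three prime factors, all of them at least
`N ^ (73 / 400)`. -/
theorem result (a b c : ℤ) (habc : Admissible a b c) (m : ℕ) :
    ∃ K : ℕ, ∀ S : Finset ℕ, K ≤ S.card → ∀ l : ℕ, ∃ B : ℕ, ∀ᶠ N : ℕ in atTop,
    ∃ H ⊆ S, H.card = m ∧ ∃ n d : ℕ, 1 ≤ d ∧ (d : ℝ) ≤ Real.log N ^ B ∧
      ∀ j < l, N < n + j * d ∧ ((n + j * d : ℕ) : ℝ) ≤ N + (N : ℝ) ^ (3 / 4 : ℝ) ∧
        ∀ h ∈ H, AlmostPrimeValue a b c ((N : ℝ) ^ (73 / 400 : ℝ)) (n + j * d + h) := by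
  have hΔ := habc.2.2.2
  have ha := habc.1
  obtain ⟨K, hK⟩ := Pool.Agent.R498.MT.quad_gen a b c ha.ne' hΔ
    (Pool.Agent.R498.MT.QG a b c) (by
      intro h
      have := congrArg (fun Q : Polynomial ℤ => Q.eval 0) h
      simp only [Pool.Agent.R498.MT.QG_eval, Polynomial.eval_zero] at this
      exact Pool.Agent.R498.MT.QG_ne_zero a b c hΔ 0 this)
    (fun p hp => by
      obtain ⟨n, hn⟩ := no_fixed a b c habc p hp
      exact ⟨n, by rwa [Pool.Agent.R498.MT.QG_eval]⟩)
    (fun p _ n hd => by rw [Pool.Agent.R498.MT.QG_eval]; exact hd) m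
  refine ⟨K, fun S hS l => ?_⟩
  obtain ⟨δ, -, hl⟩ := hK S hS
  obtain ⟨B, hN⟩ := hl (l + 2) (by omega)
  refine ⟨B, ?_⟩
  filter_upwards [hN] with N hN
  obtain ⟨H, hH, hHc, n, d, h1, h2, h3, h4, h5⟩ := hN
  refine ⟨H, hH, hHc, n, d, h3, h4, fun j hj => ⟨by omega, ?_, fun h hh => ?_⟩⟩
  · refine le_trans ?_ h2
    have : n + j * d ≤ n + (l + 2 - 1) * d := by
      have := Nat.mul_le_mul_right d (show j ≤ l + 2 - 1 by omega)
      omega
    exact_mod_cast this
  · obtain ⟨h6, h7, -⟩ := h5 j (by omega) h hh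
    exact ⟨Pool.Agent.R498.MT.QG_ne_zero a b c hΔ _, h6, h7⟩

end Pool.Agent.Results.MP_a17b09_nt.Clusters
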