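import Pool.Agent.R460.SC.Fb
import Pool.Agent.R460.SC.Ga

set_option autoImplicit false

/-!
# Conjecture F of Hardy and Littlewood for almost all constant terms in the residue classes of every modulus

Fix integers `a > 0` and `b`. For every modulus `q ≤ X ^ (1 / 2 - ρ)` with at most `(log X)^T` divisors, without any
exceptional moduli, and every residue class `c₀` modulo `q` with `gcd(b² - 4 a c₀, q) ≤ (log X)^T`: all but at most
`X / (q (log X)^A)` of the `1 ≤ c ≤ X`, `c ≡ c₀ (mod q)`, for which `(a, b, c)` is admissible satisfy: the product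
`C(a, b, c)` converges, and for all `y ≤ √X`

`π_f(y) = 2 C(a, b, c) ∑_{t ≤ y} 1 / log f(t) + O(√X / (log X)^C)`, `f(t) = a t² + b t + c`,

which is the formula of Conjecture F in this range, since `C(a, b, c) Li(x) ∼ 2 C(a, b, c) ∑_{t ≤ x} 1 / log f(t)` for a
fixed `f`. In particular `f(t)` is prime for some `t ≤ √X`.

Proof: `R460/SB` (the formula with the product over the primes `p ≤ (log X)^B`) and `R460/SC`: for almost all `c` in the
class the rest of the product is `1 + O((log X)^(-C))` (a large sieve inequality over the squarefree kernels of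
`b² - 4 a c`, which are shared by few `c` of the class, and the theorem of Siegel and Walfisz for the characters).
-/

namespace Pool.Agent.Results.MP_a17b09_nt.ConjectureFInClasses

open Finset Filter Topology

/-- The polynomial. -/
def f (a b c : ℤ) (t : ℕ) : ℤ := a * (t : ℤ) ^ 2 + b * (t : ℤ) + c

/-- The triple `(a, b, c)`, `a > 0`, is admissible. -/
def Admissible (a b c : ℤ) : Prop :=
  Int.gcd (Int.gcd a b : ℤ) c = 1 ∧ ¬ (Even (a + b) ∧ Even c) ∧ ¬ IsSquare (b ^ 2 - 4 * a * c)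

/-- The products which define `C(a, b, c)`, over the primes `p ≤ z` (`jacobiSym Δ p` is the Legendre symbol). -/
noncomputable def partialC (a b c : ℤ) (z : ℕ) : ℝ :=
  (if Odd (a + b) then 1 / 2 else 1) *
    (∏ p ∈ (Icc 3 z).filter (fun p : ℕ => p.Prime ∧ (p : ℤ) ∣ a ∧ (p : ℤ) ∣ b), (p : ℝ) / (p - 1)) *
    ∏ p ∈ (Icc 3 z).filter (fun p : ℕ => p.Prime ∧ ¬ (p : ℤ) ∣ a),
      (1 - (jacobiSym (b ^ 2 - 4 * a * c) p : ℝ) / (p - 1))

/-- `K = C(a, b, c)`: the products over the primes, in increasing order, converge to `K`. -/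
def IsC (a b c : ℤ) (K : ℝ) : Prop := Tendsto (partialC a b c) atTop (𝓝 K)

/-- `π_f(y)`. -/
def count (a b c : ℤ) (y : ℕ) : ℕ := ((Icc 1 y).filter (fun t : ℕ => (f a b c t).toNat.Prime)).card

/-- The conclusion for one constant term `c`. -/
def Good (a b : ℤ) (C X : ℕ) (c : ℤ) : Prop :=
  (∃ t : ℕ, 1 ≤ t ∧ t ^ 2 ≤ X ∧ (f a b c t).toNat.Prime) ∧
  ∃ K : ℝ, IsC a b c K ∧ ∀ y : ℕ, y ^ 2 ≤ X →
    |(count a b c y : ℝ) - 2 * K * ∑ t ∈ Icc 1 y, 1 / Real.log ((f a b c t : ℤ) : ℝ)| ≤ Real.sqrt X / Real.log X ^ C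

open Classical in
/-- The number of the integers `1 ≤ c ≤ X`, `c ≡ c₀ (mod q)`, for which `(a, b, c)` is admissible and the conclusion
fails. -/
noncomputable def exceptions (a b : ℤ) (C X q : ℕ) (c₀ : ℤ) : ℕ :=
  ((Icc 1 (X : ℤ)).filter (fun c : ℤ => c ≡ c₀ [ZMOD q] ∧ Admissible a b c ∧ ¬ Good a b C X c)).card

lemma not_dvd {a b c : ℤ} (h : Admissible a b c) {p : ℕ} (hp : p.Prime) (ha : (p : ℤ) ∣ a) (hb : (p : ℤ) ∣ b) :
    ¬ (p : ℤ) ∣ c := by
  intro hc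
  have h1 : (p : ℤ) ∣ (Int.gcd (Int.gcd a b : ℤ) c : ℤ) := Int.dvd_coe_gcd (Int.dvd_coe_gcd ha hb) hc
  rw [h.1] at h1
  have h2 : p ∣ 1 := by exact_mod_cast h1
  exact hp.one_lt.ne' (Nat.dvd_one.1 h2)

/-- an admissible polynomial has no fixed prime divisor -/
lemma no_fixed {a b c : ℤ} (h : Admissible a b c) (p : ℕ) (hp : p.Prime) : ∃ m : ℕ, ¬ (p : ℤ) ∣ f a b c m := by
  by_contra hcon
  push Not at hcon
  have h0 := hcon 0
  have h1 := hcon 1
  have h2 := hcon 2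
  unfold f at h0 h1 h2
  push_cast at h0 h1 h2
  have g0 : (p : ℤ) ∣ c := by simpa using h0
  have g1 : (p : ℤ) ∣ a + b := by
    have : (p : ℤ) ∣ (a * 1 ^ 2 + b * 1 + c) - c := dvd_sub h1 g0
    have e : (a * 1 ^ 2 + b * 1 + c) - c = a + b := by ring
    rwa [e] at this
  have g2 : (p : ℤ) ∣ 2 * a := by
    have : (p : ℤ) ∣ (a * 2 ^ 2 + b * 2 + c) - c - 2 * (a + b) := dvd_sub (dvd_sub h2 g0) (Dvd.dvd.mul_left g1 2)
    have e : (a * 2 ^ 2 + b * 2 + c) - c - 2 * (a + b) = 2 * a := by ring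
    rwa [e] at this
  by_cases hp2 : p = 2
  · subst hp2
    exact h.2.1 ⟨even_iff_two_dvd.2 (by exact_mod_cast g1), even_iff_two_dvd.2 (by exact_mod_cast g0)⟩
  · have hpz : Prime (p : ℤ) := Nat.prime_iff_prime_int.1 hp
    rcases hpz.dvd_or_dvd g2 with g | g
    · have : p ∣ 2 := by exact_mod_cast g
      exact hp2 ((Nat.prime_dvd_prime_iff_eq hp Nat.prime_two).1 this)
    · have gb : (p : ℤ) ∣ b := (dvd_add_right g).1 g1
      exact not_dvd h hp g gb g0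

theorem result (a b : ℤ) (ha : 0 < a) (ρ : ℝ) (hρ : 0 < ρ) (A C T : ℕ) :
    ∃ X₀ : ℕ, ∀ X : ℕ, X₀ ≤ X →
      ∀ q : ℕ, 1 ≤ q → (q : ℝ) ≤ (X : ℝ) ^ (1 / 2 - ρ) → (q.divisors.card : ℝ) ≤ Real.log X ^ T →
      ∀ c₀ : ℤ, (Int.gcd (b ^ 2 - 4 * a * c₀) q : ℝ) ≤ Real.log X ^ T →
        (exceptions a b C X q c₀ : ℝ) ≤ X / (q * Real.log X ^ A) := by
  classical
  obtain ⟨X₀, h0⟩ := Pool.Agent.R460.SC.fin_true (b := b) ha ρ hρ A C T
  refine ⟨X₀, fun X hX q hq1 hqX hτ c₀ hb => ?_⟩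
  have h2 := h0 X hX q hq1 hqX hτ c₀ hb
  refine le_trans ?_ h2
  unfold exceptions
  have hf : ∀ (c : ℤ) (t : ℕ), Pool.Agent.R460.SB.fv (-a) (-b) c t = f a b c t := by
    intro c t
    unfold Pool.Agent.R460.SB.fv f
    ring
  have hr : ∀ (c : ℤ) (p : ℕ),
      Pool.Agent.H373R2.T7.nuB (Pool.Agent.R460.SB.QS (-a) (-b) c) p = Pool.Agent.R460.SC.om a b c p := by
    intro c p
    unfold Pool.Agent.R460.SC.om Pool.Agent.H373R2.T7.nuB Pool.Agent.R460.SB.QS
    have e : ∀ m : ℕ, ((p : ℤ) ∣ c - (-a * (m : ℤ) ^ 2 + -b * (m : ℤ))) ↔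
        (p : ℤ) ∣ a * (m : ℤ) ^ 2 + b * (m : ℤ) + c := by
      intro m
      have e1 : c - (-a * (m : ℤ) ^ 2 + -b * (m : ℤ)) = a * (m : ℤ) ^ 2 + b * (m : ℤ) + c := by ring
      rw [e1]
    congr 1
    ext m
    simp only [mem_filter, e]
  have hs : ∀ c : ℤ, Admissible a b c → ∀ z : ℕ, 2 ≤ z →
      Pool.Agent.R460.SB.Sz (-a) (-b) c z = 2 * partialC a b c z := by
    intro c hc z hz
    have e1 := Pool.Agent.R460.SC.cf_eq hc.2.1 (fun p hp h1 h2 => not_dvd hc hp h1 h2) (fun p hp h2 hpa => by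
      have hpa' : ¬ (p : ℤ) ∣ -a := by rwa [dvd_neg]
      have h1 := Pool.Agent.R460.SB.nu_leg (-a) (-b) c hp (by omega) hpa'
      have h3 : 4 * (-a) * c + (-b) ^ 2 = b ^ 2 - 4 * a * c := by ring
      rw [h3, hr] at h1
      exact_mod_cast h1) hz
    rw [Pool.Agent.R460.SB.Sz_prod]
    have e2 : partialC a b c z = Pool.Agent.R460.SC.cf a b c z := rfl
    rw [e2, ← e1]
    unfold Pool.Agent.H373R2.T7.pz
    refine prod_congr rfl fun p _ => ?_
    rw [hr]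
  have hg : ∀ c : ℤ, Admissible a b c → Pool.Agent.R460.SC.GoodT a b C X c → Good a b C X c := by
    intro c hc hgt
    obtain ⟨g1, S, g2, g3⟩ := hgt
    simp only [hf] at g1 g3
    refine ⟨g1 (fun p hp => no_fixed hc p hp), S / 2, ?_, fun y hy => ?_⟩
    · have e1 : Tendsto (fun z : ℕ => Pool.Agent.R460.SB.Sz (-a) (-b) c z / 2) atTop (𝓝 (S / 2)) := g2.div_const 2
      refine e1.congr' ?_
      filter_upwards [eventually_ge_atTop 2] with z hz
      rw [hs c hc z hz]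
      ring
    · have e2 : 2 * (S / 2) = S := by ring
      rw [e2]
      exact g3 y hy
  have hsub : (Icc 1 (X : ℤ)).filter (fun c : ℤ => c ≡ c₀ [ZMOD q] ∧ Admissible a b c ∧ ¬ Good a b C X c) ⊆
      (Icc 1 (X : ℤ)).filter (fun c : ℤ => c ≡ c₀ [ZMOD q] ∧ ¬ Pool.Agent.R460.SC.GoodT a b C X c) := by
    intro c hc
    rw [mem_filter] at hc ⊢
    exact ⟨hc.1, hc.2.1, fun h => hc.2.2.2 (hg c hc.2.2.1 h)⟩
  exact_mod_cast card_le_card hsub

end Pool.Agent.Results.MP_a17b09_nt.ConjectureFInClasses
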