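import Mathlib
import Pool.Agent.R463.Quad

set_option autoImplicit false

/-!
# The gap laws for the rough values of all quadratic polynomials of Conjecture F

Uniformly in ALL admissible triples `(a, b, c)` (as large as a power of `X`): the distances of the
arguments `n` for which `a n ^ 2 + b n + c` has no prime factor `≤ X ^ (1 / r)` to their `l`-th
predecessors have the distribution of the Poisson process, in ALL intervals of length at least `X ^ θ`.
-/

namespace Pool.Agent.Results.MP_a17b09_nt.GapLaws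

open Finset Filter
open Pool.Agent.R463.PS

/-- The triples of Conjecture F: `a > 0`, `gcd (a, b, c) = 1`, `a + b` and `c` are not both even, the
discriminant is not a square. -/
def Admissible (a b c : ℤ) : Prop :=
  0 < a ∧ (∀ p : ℕ, p.Prime → ¬ ((p : ℤ) ∣ a ∧ (p : ℤ) ∣ b ∧ (p : ℤ) ∣ c)) ∧
    ¬ (Even (a + b) ∧ Even c) ∧ ¬ IsSquare (b ^ 2 - 4 * a * c)

/-- `a n ^ 2 + b n + c` has no prime factor `p ≤ X ^ (1 / r)` -/
def Good (a b c : ℤ) (X r n : ℕ) : Prop :=
  ∀ p : ℕ, p.Prime → (p : ℝ) ≤ (X : ℝ) ^ (1 / (r : ℝ)) → ¬ (p : ℤ) ∣ a * (n : ℤ) ^ 2 + b * n + c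

/-- the number of the roots of `a n ^ 2 + b n + c` modulo `p` -/
def nu (a b c : ℤ) (p : ℕ) : ℕ :=
  ((range p).filter (fun n : ℕ => (p : ℤ) ∣ a * (n : ℤ) ^ 2 + b * n + c)).card

/-- the density: the product of `1 - nu(p) / p` over the primes `p ≤ X ^ (1 / r)` -/
noncomputable def V (a b c : ℤ) (X r : ℕ) : ℝ :=
  ∏ p ∈ (Icc 1 ⌊(X : ℝ) ^ (1 / (r : ℝ))⌋₊).filter Nat.Prime, (1 - (nu a b c p : ℝ) / p)

/-- the partial product of the Bateman-Horn constant `2 C (a, b, c)`: the product of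
`(1 - nu(p) / p) / (1 - 1 / p)` over the primes `p ≤ X ^ (1 / r)` -/
noncomputable def C (a b c : ℤ) (X r : ℕ) : ℝ :=
  ∏ p ∈ (Icc 1 ⌊(X : ℝ) ^ (1 / (r : ℝ))⌋₊).filter Nat.Prime,
    (1 - (nu a b c p : ℝ) / p) / (1 - 1 / (p : ℝ))

open Classical in
/-- the number of the good `m` in `(Z, Z + Y]` for which fewer than `l` of the integers in `[m - T, m)`
are good -/
noncomputable def Far (a b c : ℤ) (X r l T Z Y : ℕ) : ℕ :=
  ((Ioc Z (Z + Y)).filter (fun m => Good a b c X r m ∧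
    ((Ico (m - T) m).filter (fun n => Good a b c X r n)).card < l)).card

lemma good_iff (a b c : ℤ) (X r n : ℕ) :
    Good a b c X r n ↔ Sifted (Pool.Agent.TH464.PO.qs a b c) X r n := by
  rw [quad_sift]
  rfl

lemma V_eq (a b c : ℤ) (X r : ℕ) : V a b c X r = Pool.Agent.R463.PS.V (Pool.Agent.TH464.PO.qs a b c) X r := by
  unfold V Pool.Agent.R463.PS.V
  apply prod_congr rfl
  intro p _
  rw [quad_om]
  rfl

lemma C_eq (a b c : ℤ) (X r : ℕ) : C a b c X r = V a b c X r / Pool.Agent.H373R2.T7.Vz ⌊(X : ℝ) ^ (1 / (r : ℝ))⌋₊ := by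
  unfold C V Pool.Agent.H373R2.T7.Vz
  rw [Finset.prod_div_distrib]
  rfl

lemma Far_eq (a b c : ℤ) (X r l T Z Y : ℕ) :
    Far a b c X r l T Z Y = Pool.Agent.R463.PS.Far (Pool.Agent.TH464.PO.qs a b c) X r l T Z Y := by
  classical
  unfold Far Pool.Agent.R463.PS.Far
  congr 1
  apply filter_congr
  intro m _
  rw [good_iff]
  have : (Ico (m - T) m).filter (fun n => Good a b c X r n) =
      (Ico (m - T) m).filter (fun n => Sifted (Pool.Agent.TH464.PO.qs a b c) X r n) :=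
    filter_congr fun n _ => good_iff a b c X r n
  rw [this]

/-- **The gap laws for the rough values of all quadratic polynomials.** For every natural `A`, `θ > 0`,
`l₀`, `x₀` and `ε > 0` there is `r₀` such that for all `r ≥ r₀`:
(1) for every `B` and all large `X` the following holds uniformly for ALL admissible triples `(a, b, c)` with
`|a|, |b|, |c| ≤ X ^ A` for which the partial product `C` of the Bateman-Horn constant over the primes
`p ≤ X ^ (1 / r)` is at most `B`, and for ALL intervals `(Z, Z + Y]` with `Y ≥ X ^ θ`: the number `Far` of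
the good `m` in the interval, with fewer than `l` good integers in `[m - T, m)`, is the value
`Y V ∑_{j < l} exp (- T V) (T V) ^ j / j!` for the Poisson process of density `V`, up to `ε Y V`, for all
`l ≤ l₀` and all `T`, and for all `l` and all `T ≤ x₀ / V`. (For `T = 0`, `l = 1` this is the number of
the good integers in the interval.)
(2) for every admissible triple there is `B` such that `C ≤ B` for all large `X`. -/
theorem result (A : ℕ) (θ : ℝ) (hθ : 0 < θ) (l₀ : ℕ) (x₀ ε : ℝ) (hε : 0 < ε) :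
    ∃ r₀ : ℕ, ∀ r : ℕ, r₀ ≤ r →
      (∀ B : ℝ, ∀ᶠ X : ℕ in atTop, ∀ a b c : ℤ, Admissible a b c →
        |a| ≤ (X : ℤ) ^ A → |b| ≤ (X : ℤ) ^ A → |c| ≤ (X : ℤ) ^ A → C a b c X r ≤ B →
        ∀ Z Y : ℕ, (X : ℝ) ^ θ ≤ Y → ∀ l T : ℕ, (l ≤ l₀ ∨ T * V a b c X r ≤ x₀) →
          |(Far a b c X r l T Z Y : ℝ) - Y * V a b c X r *
            ∑ j ∈ range l, Real.exp (-(T * V a b c X r)) * (T * V a b c X r) ^ j / j.factorial| ≤
            ε * (Y * V a b c X r)) ∧
      ∀ a b c : ℤ, Admissible a b c → ∃ B : ℝ, ∀ᶠ X : ℕ in atTop, C a b c X r ≤ B := by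
  obtain ⟨r₀, h⟩ := gaps 1 2 ((A : ℝ) + 1) 1 θ (by positivity) one_pos hθ l₀ x₀ ε hε
  refine ⟨max r₀ 2, fun r hr => ?_⟩
  have hr2 : 2 ≤ r := (le_max_right _ _).trans hr
  obtain ⟨w1, w2, hw1, hw2, hW⟩ := W0_bounds r hr2
  constructor
  · intro B
    filter_upwards [h r ((le_max_left _ _).trans hr) (|B| * w2), hW, eventually_ge_atTop 3]
      with X h1 h2 h3 a b c hadm haX hbX hcX hCB Z Y hY l T hT
    obtain ⟨g1, g2, g3, g4⟩ := hadm
    have hlog : 0 < Real.log X := Real.log_pos (by exact_mod_cast (by omega : 1 < X))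
    have hz : 0 < Pool.Agent.H373R2.T7.Vz ⌊(X : ℝ) ^ (1 / (r : ℝ))⌋₊ :=
      lt_of_lt_of_le (by positivity) h2.1
    rw [C_eq, div_le_iff₀ hz] at hCB
    have hV : V a b c X r ≤ |B| * w2 / Real.log X := by
      refine hCB.trans ?_
      calc B * Pool.Agent.H373R2.T7.Vz ⌊(X : ℝ) ^ (1 / (r : ℝ))⌋₊ ≤
          |B| * Pool.Agent.H373R2.T7.Vz ⌊(X : ℝ) ^ (1 / (r : ℝ))⌋₊ :=
            mul_le_mul_of_nonneg_right (le_abs_self B) hz.le
        _ ≤ |B| * (w2 / Real.log X) := mul_le_mul_of_nonneg_left h2.2 (abs_nonneg B)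
        _ = |B| * w2 / Real.log X := by ring
    rw [V_eq] at hV hT ⊢
    rw [Far_eq]
    exact h1 _ (quad_system A X (by omega) a b c g1 g2 g3 g4 haX hbX hcX _) hV Z Y hY l T hT
  · intro a b c hadm
    obtain ⟨g1, g2, g3, g4⟩ := hadm
    have hsys := Pool.Agent.TH464.PO.qs_sys a b c g1 g2 g3 g4
    obtain ⟨v, Cv, hv, hCv, hVf⟩ := V_fixed (Pool.Agent.TH464.PO.qs a b c) hsys.irr
      (fun i => Nat.one_le_iff_ne_zero.2 (hsys.deg i).ne') hsys.lead hsys.inj hsys.adm r hr2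
    refine ⟨Cv / w1, ?_⟩
    filter_upwards [hVf, hW, eventually_ge_atTop 3] with X h1 h2 h3
    have hlog : 0 < Real.log X := Real.log_pos (by exact_mod_cast (by omega : 1 < X))
    have hz : 0 < Pool.Agent.H373R2.T7.Vz ⌊(X : ℝ) ^ (1 / (r : ℝ))⌋₊ :=
      lt_of_lt_of_le (by positivity) h2.1
    rw [C_eq, div_le_iff₀ hz, V_eq]
    refine h1.2.trans ?_
    rw [pow_one]
    calc Cv / Real.log X = Cv / w1 * (w1 / Real.log X) := by field_simp
      _ ≤ Cv / w1 * Pool.Agent.H373R2.T7.Vz ⌊(X : ℝ) ^ (1 / (r : ℝ))⌋₊ :=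
        mul_le_mul_of_nonneg_left h2.1 (by positivity)

end Pool.Agent.Results.MP_a17b09_nt.GapLaws
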